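import Pool.Agent.H484.AL.Stm

namespace Pool.Agent.H484.AL

open Finset
open scoped Classical

theorem prim_card_split (e N : ℕ) (Q : (Fin (e + 1) → ℕ) → Prop) [DecidablePred Q] :
    (univ.filter (fun a : Fin (e + 1) → Fin N => Q (fun i => (a i : ℕ)))).card
      = ∑ a0 ∈ range N, (univ.filter (fun a' : Fin e → Fin N =>
          Q (Fin.cons a0 (fun i => (a' i : ℕ))))).card := by
  have key : ∀ (a0 : Fin N) (a' : Fin e → Fin N),
      (fun i => ((Fin.cons a0 a' : Fin (e + 1) → Fin N) i : ℕ))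
        = (Fin.cons (a0 : ℕ) (fun i => (a' i : ℕ)) : Fin (e + 1) → ℕ) := by
    intro a0 a'
    funext i
    refine Fin.cases ?_ ?_ i
    · simp
    · intro j; simp
  rw [Finset.sum_range]
  simp only [Finset.card_filter]
  rw [← (Fin.consEquiv (fun _ : Fin (e + 1) => Fin N)).sum_comp, Fintype.sum_prod_type]
  refine Finset.sum_congr rfl (fun a0 _ => Finset.sum_congr rfl (fun a' _ => ?_))
  have h := key a0 a'
  simp only [Fin.consEquiv_apply]
  rw [h]

theorem prim_filt_dec {α : Type*} (s : Finset α) (p : α → Prop) (i1 i2 : DecidablePred p) :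
    @Finset.filter α p i1 s = @Finset.filter α p i2 s := by
  have h : i1 = i2 := Subsingleton.elim _ _
  subst h
  rfl

theorem t_PRIM (hGCD : S_GCD) (hFIB : S_FIB) : S_PRIM := by
  intro e he hC R ε hε
  obtain ⟨c, γ, N0, hc, hγ, hcore⟩ := hC R (ε / 2) (by positivity)
  obtain ⟨N0', hgcd⟩ := hGCD γ (ε / 2) hγ (by positivity)
  refine ⟨c, max (max N0 N0') 1, hc, ?_⟩
  intro N hN
  have hN0 : N0 ≤ N := le_trans (le_trans (le_max_left _ _) (le_max_left _ _)) hN
  have hN0' : N0' ≤ N := le_trans (le_trans (le_max_right _ _) (le_max_left _ _)) hN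
  have hN1 : 1 ≤ N := le_trans (le_max_right _ _) hN
  have hsplit := prim_card_split e N (fun a => prim (e + 1) N a ∧
    ¬ Good (e + 1) R N a (c * (Real.log (N : ℝ)) ^ e * Real.log (Real.log (N : ℝ))))
  rw [hsplit]
  clear hsplit
  push_cast
  have hall : ∀ a0 : ℕ, (((univ.filter (fun a' : Fin e → Fin N =>
      prim (e + 1) N (Fin.cons a0 (fun i => (a' i : ℕ))) ∧
      ¬ Good (e + 1) R N (Fin.cons a0 (fun i => (a' i : ℕ)))
        (c * (Real.log (N : ℝ)) ^ e * Real.log (Real.log (N : ℝ))))).card : ℕ) : ℝ)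
        ≤ (N : ℝ) ^ e := by
    intro a0
    have h1 := Finset.card_filter_le (univ : Finset (Fin e → Fin N)) (fun a' : Fin e → Fin N =>
      prim (e + 1) N (Fin.cons a0 (fun i => (a' i : ℕ))) ∧
      ¬ Good (e + 1) R N (Fin.cons a0 (fun i => (a' i : ℕ)))
        (c * (Real.log (N : ℝ)) ^ e * Real.log (Real.log (N : ℝ))))
    have h2 : (univ : Finset (Fin e → Fin N)).card = N ^ e := by simp
    rw [h2] at h1
    exact_mod_cast h1
  have hsmall : ∀ a0 : ℕ, ((Nat.gcd a0 N : ℕ) : ℝ) ≤ (N : ℝ) ^ γ →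
      (((univ.filter (fun a' : Fin e → Fin N =>
      prim (e + 1) N (Fin.cons a0 (fun i => (a' i : ℕ))) ∧
      ¬ Good (e + 1) R N (Fin.cons a0 (fun i => (a' i : ℕ)))
        (c * (Real.log (N : ℝ)) ^ e * Real.log (Real.log (N : ℝ))))).card : ℕ) : ℝ)
        ≤ ε / 2 * (N : ℝ) ^ e := by
    intro a0 hg
    have h1 := hFIB e N a0 (fun a => ¬ Good (e + 1) R N a
      (c * (Real.log (N : ℝ)) ^ e * Real.log (Real.log (N : ℝ)))) hN1
    have hgM : Nat.gcd a0 N * (N / Nat.gcd a0 N) = N := Nat.mul_div_cancel' (Nat.gcd_dvd_right a0 N)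
    have hgpos : 0 < Nat.gcd a0 N := Nat.gcd_pos_of_pos_right _ hN1
    have hcop : Nat.Coprime (a0 / Nat.gcd a0 N) (N / Nat.gcd a0 N) :=
      Nat.coprime_div_gcd_div_gcd hgpos
    have h2 : ∀ α ∈ univ.filter (fun α : Fin e → Fin (Nat.gcd a0 N) =>
          prim e (Nat.gcd a0 N) (fun i => (α i : ℕ))),
        (((univ.filter (fun b : Fin e → Fin (N / Nat.gcd a0 N) =>
          ¬ Good (e + 1) R N (vec e (Nat.gcd a0 N) (a0 / Nat.gcd a0 N) (fun i => (α i : ℕ))
            (fun i => (b i : ℕ)))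
            (c * (Real.log (N : ℝ)) ^ e * Real.log (Real.log (N : ℝ))))).card : ℕ) : ℝ)
          ≤ ε / 2 * ((N / Nat.gcd a0 N : ℕ) : ℝ) ^ e := by
      intro α hα
      have hα' := (Finset.mem_filter.mp hα).2
      have h3 := hcore (Nat.gcd a0 N) (N / Nat.gcd a0 N) (a0 / Nat.gcd a0 N)
        (fun i => (α i : ℕ)) (by rw [hgM]; exact hN0) (by rw [hgM]; exact hg) hcop hα'
      rw [hgM] at h3
      exact h3
    have h4 : (((univ.filter (fun a' : Fin e → Fin N =>
      prim (e + 1) N (Fin.cons a0 (fun i => (a' i : ℕ))) ∧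
      ¬ Good (e + 1) R N (Fin.cons a0 (fun i => (a' i : ℕ)))
        (c * (Real.log (N : ℝ)) ^ e * Real.log (Real.log (N : ℝ))))).card : ℕ) : ℝ)
        ≤ ∑ α ∈ univ.filter (fun α : Fin e → Fin (Nat.gcd a0 N) =>
          prim e (Nat.gcd a0 N) (fun i => (α i : ℕ))),
          (((univ.filter (fun b : Fin e → Fin (N / Nat.gcd a0 N) =>
          ¬ Good (e + 1) R N (vec e (Nat.gcd a0 N) (a0 / Nat.gcd a0 N) (fun i => (α i : ℕ))
            (fun i => (b i : ℕ)))
            (c * (Real.log (N : ℝ)) ^ e * Real.log (Real.log (N : ℝ))))).card : ℕ) : ℝ) := by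
      rw [← Nat.cast_sum]
      refine Nat.cast_le.mpr (le_trans (le_of_eq ?_) (h1.trans (le_of_eq ?_)))
      · exact congrArg Finset.card (prim_filt_dec _ _ _ _)
      · exact Finset.sum_congr rfl (fun α _ => congrArg Finset.card (prim_filt_dec _ _ _ _))
    refine h4.trans ((Finset.sum_le_sum h2).trans ?_)
    rw [Finset.sum_const, nsmul_eq_mul]
    have h5 : (((univ.filter (fun α : Fin e → Fin (Nat.gcd a0 N) =>
          prim e (Nat.gcd a0 N) (fun i => (α i : ℕ)))).card : ℕ) : ℝ)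
          ≤ ((Nat.gcd a0 N : ℕ) : ℝ) ^ e := by
      have h6 := Finset.card_filter_le (univ : Finset (Fin e → Fin (Nat.gcd a0 N)))
        (fun α => prim e (Nat.gcd a0 N) (fun i => (α i : ℕ)))
      have h7 : (univ : Finset (Fin e → Fin (Nat.gcd a0 N))).card = (Nat.gcd a0 N) ^ e := by simp
      rw [h7] at h6
      exact_mod_cast h6
    have hN' : (N : ℝ) = ((Nat.gcd a0 N : ℕ) : ℝ) * ((N / Nat.gcd a0 N : ℕ) : ℝ) := by
      rw [← Nat.cast_mul, hgM]
    calc (((univ.filter (fun α : Fin e → Fin (Nat.gcd a0 N) =>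
          prim e (Nat.gcd a0 N) (fun i => (α i : ℕ)))).card : ℕ) : ℝ)
            * (ε / 2 * ((N / Nat.gcd a0 N : ℕ) : ℝ) ^ e)
        ≤ ((Nat.gcd a0 N : ℕ) : ℝ) ^ e * (ε / 2 * ((N / Nat.gcd a0 N : ℕ) : ℝ) ^ e) := by
          exact mul_le_mul_of_nonneg_right h5 (by positivity)
      _ = ε / 2 * (((Nat.gcd a0 N : ℕ) : ℝ) * ((N / Nat.gcd a0 N : ℕ) : ℝ)) ^ e := by
          rw [mul_pow]; ring
      _ = ε / 2 * (N : ℝ) ^ e := by rw [← hN']
  have hterm : ∀ a0 ∈ range N, (((univ.filter (fun a' : Fin e → Fin N =>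
      prim (e + 1) N (Fin.cons a0 (fun i => (a' i : ℕ))) ∧
      ¬ Good (e + 1) R N (Fin.cons a0 (fun i => (a' i : ℕ)))
        (c * (Real.log (N : ℝ)) ^ e * Real.log (Real.log (N : ℝ))))).card : ℕ) : ℝ)
        ≤ (if (N : ℝ) ^ γ < ((Nat.gcd a0 N : ℕ) : ℝ) then (N : ℝ) ^ e else 0)
          + ε / 2 * (N : ℝ) ^ e := by
    intro a0 _
    by_cases h : (N : ℝ) ^ γ < ((Nat.gcd a0 N : ℕ) : ℝ)
    · rw [if_pos h]
      have h1 := hall a0
      have h2 : (0 : ℝ) ≤ ε / 2 * (N : ℝ) ^ e := by positivity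
      linarith
    · rw [if_neg h, zero_add]
      exact hsmall a0 (not_lt.mp h)
  refine (Finset.sum_le_sum hterm).trans ?_
  rw [Finset.sum_add_distrib, Finset.sum_const, ← Finset.sum_filter, Finset.sum_const,
    nsmul_eq_mul, nsmul_eq_mul, Finset.card_range]
  have hg := hgcd N hN0'
  have h8 : ((((range N).filter (fun a => (N : ℝ) ^ γ < (Nat.gcd a N : ℝ))).card : ℕ) : ℝ)
      * (N : ℝ) ^ e ≤ (ε / 2 * (N : ℝ)) * (N : ℝ) ^ e :=
    mul_le_mul_of_nonneg_right hg (by positivity)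
  calc _ ≤ (ε / 2 * (N : ℝ)) * (N : ℝ) ^ e + (N : ℝ) * (ε / 2 * (N : ℝ) ^ e) := by
        exact add_le_add h8 le_rfl
    _ = ε * (N : ℝ) ^ (e + 1) := by rw [pow_succ]; ring

end Pool.Agent.H484.AL
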